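import Pool.Agent.Helper985.CP.M_ins_disj
import Pool.Agent.Helper985.CP.M_ins0_num
import Pool.Agent.Helper985.CT.M_insN_props
import Pool.Agent.Helper985.CT.M_peierls_relabel

set_option autoImplicit false

open MeasureTheory
open scoped Topology

namespace Pool.Agent.Helper221.Rare

open Pool.Agent.Helper985.CP

/-- the norm of a sum of wave functions with disjoint supports -/
theorem nrm2_sum_disj {S : Type} (D : Species S) {J : Type} [Fintype J] [DecidableEq J]
    (sp : J → S) (G : Finset E3) (F : E3 → Wave D J)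
    (hs : ∀ x0 ∈ G, ∀ τ, ContDiff ℝ SM (F x0 τ)) (hc : ∀ x0 ∈ G, ∀ τ, HasCompactSupport (F x0 τ))
    (hd : ∀ x0 ∈ G, ∀ x1 ∈ G, x0 ≠ x1 → ∀ τ x, F x0 τ x = 0 ∨ F x1 τ x = 0) :
    nrm2 D (fun τ x => ∑ x0 ∈ G, F x0 τ x) = ∑ x0 ∈ G, nrm2 D (F x0) := by
  unfold nrm2
  rw [Finset.sum_comm]
  refine Finset.sum_congr rfl fun τ _ => ?_
  rw [← integral_finset_sum]
  · refine integral_congr_ae (ae_of_all _ fun x => ?_)
    exact idj_normsq G (fun x0 => F x0 τ x) (fun o ho o' ho' hne => hd o ho o' ho' hne τ x)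
  · intro x0 h0
    exact (idj_int D sp (F x0 τ) (hs x0 h0 τ) (hc x0 h0 τ)).1

theorem nrm2_relab {S : Type} (D : Species S) {I J : Type} [Fintype I] [DecidableEq I]
    [Fintype J] [DecidableEq J] (e : I ≃ J) (Φ : Wave D I) :
    nrm2 D (relab D e Φ) = nrm2 D Φ := by
  unfold nrm2
  rw [← prl_sum e (fun τ => ∫ x, ‖Φ τ x‖ ^ 2)]
  refine Finset.sum_congr rfl fun τ _ => ?_
  exact prl_cov e (fun x => ‖Φ (fun i => τ (e i)) x‖ ^ 2)

theorem ins0_smooth' {S : Type} (D : Species S) {I : Type} [Fintype I]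
    [DecidableEq I] (sp : I → S) (ℓ : ℝ) (σ0 : Fin D.g) (φ : E3 → ℝ)
    (hφc : HasCompactSupport φ) (Ψ : Wave D I)
    (hΨ : IsState D sp ℓ Ψ) (τ : Option I → Fin D.g) : HasCompactSupport (ins0 D σ0 φ Ψ τ) := by
  obtain ⟨R, hR, hb⟩ := idj_W0_bound D sp ℓ σ0 φ hφc Ψ hΨ τ
  apply HasCompactSupport.of_support_subset_isCompact (isCompact_closedBall (0 : Option I → E3) R)
  intro x hx
  rw [mem_closedBall_zero_iff, pi_norm_le_iff_of_nonneg hR.le]
  intro k
  exact hb x hx k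

/-- Bessel inequality for the insertion of one particle at disjoint places: the constant is the
number of particles of the species, including the new one. -/
theorem ins_bessel {S : Type} [DecidableEq S] (D : Species S) {I : Type} [Fintype I]
    [DecidableEq I] (sp : I → S) (ℓ : ℝ) (s : S) (σ0 : Fin D.g) (G : Finset E3)
    (φ : E3 → E3 → ℝ) (hφ : ∀ x0 ∈ G, ContDiff ℝ SM (φ x0))
    (hφc : ∀ x0 ∈ G, HasCompactSupport (φ x0)) (hφ1 : ∀ x0 ∈ G, ∫ z, φ x0 z ^ 2 = 1)
    (hdis : ∀ x0 ∈ G, ∀ x1 ∈ G, x0 ≠ x1 → ∀ z, φ x0 z = 0 ∨ φ x1 z = 0)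
    (Φ : E3 → Wave D I) (hΦ : ∀ x0 ∈ G, IsState D sp ℓ (Φ x0)) :
    nrm2 D (fun τ x => ∑ x0 ∈ G, insN D sp s σ0 (φ x0) (Φ x0) τ x) ≤
      ((cnt sp s : ℝ) + 1) * ∑ x0 ∈ G, nrm2 D (Φ x0) := by
  classical
  let sp' : Option I → S := fun o => o.elim s sp
  let A : Finset (Option I) := Finset.univ.filter (fun o => sp' o = s)
  have hcard : (A.card : ℝ) = (cnt sp s : ℝ) + 1 := by
    have h1 : A.card = ∑ o : Option I, if sp' o = s then 1 else 0 := by
      simp only [A, Finset.card_filter]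
    have h2 : cnt sp s = ∑ i : I, if sp i = s then 1 else 0 := by
      simp only [cnt, Finset.card_filter]
    rw [h1, h2, Fintype.sum_option]
    have h3 : sp' none = s := rfl
    have h4 : ∀ i, sp' (some i) = sp i := fun _ => rfl
    simp only [h3, h4, if_true]
    push_cast
    ring
  have hins : ∀ x0 τ x, ins1 D sp s σ0 (φ x0) (Φ x0) τ x =
      ∑ o ∈ A, idjT D s σ0 (φ x0) (Φ x0) o τ x := by
    intro x0 τ x
    rw [Finset.sum_filter, Fintype.sum_option]
    have h3 : sp' none = s := rfl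
    have h4 : ∀ i, sp' (some i) = sp i := fun _ => rfl
    simp only [h3, h4, if_true]
    unfold ins1 idjT
    simp
  let F : Wave D (Option I) := fun τ x => ∑ x0 ∈ G, ins0 D σ0 (φ x0) (Φ x0) τ x
  obtain ⟨c, hc⟩ : ∃ c : ℝ, c = 1 / Real.sqrt ((cnt sp s : ℝ) + 1) := ⟨_, rfl⟩
  have hcnt : (0 : ℝ) < (cnt sp s : ℝ) + 1 := by positivity
  have hc2 : c ^ 2 * ((cnt sp s : ℝ) + 1) = 1 := by
    rw [hc, div_pow, one_pow, Real.sq_sqrt hcnt.le, one_div, inv_mul_cancel₀ hcnt.ne']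
  -- the sum, rewritten
  have hsum : ∀ τ x, ∑ x0 ∈ G, insN D sp s σ0 (φ x0) (Φ x0) τ x =
      (c : ℂ) * ∑ o ∈ A, (if o = none then (1 : ℂ) else exch D s) *
        relab D (Equiv.swap none o) F τ x := by
    intro τ x
    have h1 : ∀ x0, insN D sp s σ0 (φ x0) (Φ x0) τ x =
        (c : ℂ) * ∑ o ∈ A, idjT D s σ0 (φ x0) (Φ x0) o τ x := by
      intro x0
      rw [← hins, hc]
      rfl
    rw [Finset.sum_congr rfl fun x0 _ => h1 x0, ← Finset.mul_sum, Finset.sum_comm]
    congr 1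
    refine Finset.sum_congr rfl fun o _ => ?_
    have h2 : relab D (Equiv.swap none o) F τ x = ∑ x0 ∈ G, ins0 D σ0 (φ x0) (Φ x0)
      (fun k => τ (Equiv.swap none o k)) (fun k => x (Equiv.swap none o k)) := rfl
    rw [h2, Finset.mul_sum]
    rfl
  have hbound : ∀ τ x, ‖∑ x0 ∈ G, insN D sp s σ0 (φ x0) (Φ x0) τ x‖ ^ 2 ≤
      ∑ o ∈ A, ‖relab D (Equiv.swap none o) F τ x‖ ^ 2 := by
    intro τ x
    rw [hsum, norm_mul, mul_pow, Complex.norm_real, Real.norm_eq_abs, sq_abs]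
    have h1 : ‖∑ o ∈ A, (if o = none then (1 : ℂ) else exch D s) *
        relab D (Equiv.swap none o) F τ x‖ ≤
        ∑ o ∈ A, ‖relab D (Equiv.swap none o) F τ x‖ := by
      refine (norm_sum_le _ _).trans (le_of_eq ?_)
      refine Finset.sum_congr rfl fun o _ => ?_
      rw [norm_mul, idj_coef, one_mul]
    have h2 : ‖∑ o ∈ A, (if o = none then (1 : ℂ) else exch D s) *
        relab D (Equiv.swap none o) F τ x‖ ^ 2 ≤
        (A.card : ℝ) * ∑ o ∈ A, ‖relab D (Equiv.swap none o) F τ x‖ ^ 2 := by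
      refine (pow_le_pow_left₀ (norm_nonneg _) h1 2).trans ?_
      exact sq_sum_le_card_mul_sum_sq
    calc c ^ 2 * _ ≤ c ^ 2 * ((A.card : ℝ) * ∑ o ∈ A, ‖relab D (Equiv.swap none o) F τ x‖ ^ 2) :=
          mul_le_mul_of_nonneg_left h2 (sq_nonneg _)
      _ = _ := by rw [hcard, ← mul_assoc, hc2, one_mul]
  have hFs : ∀ τ, ContDiff ℝ SM (F τ) := fun τ =>
    ContDiff.sum fun x0 h0 => idj_W0_smooth D sp ℓ σ0 (φ x0) (hφ x0 h0) (Φ x0) (hΦ x0 h0) τ
  have hFc : ∀ τ, HasCompactSupport (F τ) := by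
    intro τ
    have h1 : Function.support (F τ) ⊆ ⋃ x0 ∈ G, tsupport (ins0 D σ0 (φ x0) (Φ x0) τ) := by
      intro x hx
      rw [Function.mem_support] at hx
      obtain ⟨x0, h0, h2⟩ := Finset.exists_ne_zero_of_sum_ne_zero hx
      exact Set.mem_biUnion h0 (subset_tsupport _ h2)
    refine HasCompactSupport.of_support_subset_isCompact ?_ h1
    exact G.isCompact_biUnion fun x0 h0 =>
      ins0_smooth' D sp ℓ σ0 (φ x0) (hφc x0 h0) (Φ x0) (hΦ x0 h0) τ
  have hint : ∀ (o : Option I) τ, Integrable (fun x => ‖relab D (Equiv.swap none o) F τ x‖ ^ 2) := by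
    intro o τ
    refine (idj_int D sp' (relab D (Equiv.swap none o) F τ) ?_ ?_).1
    · exact (hFs _).comp (contDiff_pi.2 fun k => contDiff_apply ℝ E3 (Equiv.swap none o k))
    · obtain ⟨R, hR, hb⟩ := (hFc (fun k => τ (Equiv.swap none o k))).isCompact.isBounded.subset_closedBall_lt 0 0
      apply HasCompactSupport.of_support_subset_isCompact
        (isCompact_closedBall (0 : Option I → E3) R)
      intro x hx
      rw [mem_closedBall_zero_iff, pi_norm_le_iff_of_nonneg hR.le]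
      intro k
      have h1 : (fun k => x (Equiv.swap none o k)) ∈
          tsupport (F (fun k => τ (Equiv.swap none o k))) := subset_tsupport _ hx
      have h2 := hb h1
      rw [mem_closedBall_zero_iff, pi_norm_le_iff_of_nonneg hR.le] at h2
      have h3 := h2 (Equiv.swap none o k)
      simp only [Equiv.swap_apply_self] at h3
      exact h3
  have hle : nrm2 D (fun τ x => ∑ x0 ∈ G, insN D sp s σ0 (φ x0) (Φ x0) τ x) ≤
      ∑ o ∈ A, nrm2 D (relab D (Equiv.swap none o) F) := by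
    unfold nrm2
    rw [Finset.sum_comm]
    refine Finset.sum_le_sum fun τ _ => ?_
    rw [← integral_finset_sum _ fun o _ => hint o τ]
    exact integral_mono_of_nonneg (ae_of_all _ fun x => by positivity)
      (integrable_finset_sum _ fun o _ => hint o τ) (ae_of_all _ fun x => hbound τ x)
  refine hle.trans (le_of_eq ?_)
  rw [Finset.sum_congr rfl fun o _ => nrm2_relab D (Equiv.swap none o) F, Finset.sum_const,
    nsmul_eq_mul, hcard]
  congr 1
  have h5 : nrm2 D F = ∑ x0 ∈ G, nrm2 D (ins0 D σ0 (φ x0) (Φ x0)) := by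
    refine nrm2_sum_disj D sp' G (fun x0 => ins0 D σ0 (φ x0) (Φ x0)) ?_ ?_ ?_
    · exact fun x0 h0 τ => idj_W0_smooth D sp ℓ σ0 (φ x0) (hφ x0 h0) (Φ x0) (hΦ x0 h0) τ
    · exact fun x0 h0 τ => ins0_smooth' D sp ℓ σ0 (φ x0) (hφc x0 h0) (Φ x0) (hΦ x0 h0) τ
    · intro x0 h0 x1 h1 hne τ x
      unfold ins0
      by_cases hτ : τ none = σ0
      · simp only [if_pos hτ]
        rcases hdis x0 h0 x1 h1 hne (x none) with h | h
        · left; rw [h]; simp
        · right; rw [h]; simp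
      · left
        simp only [if_neg hτ]
  rw [h5]
  exact Finset.sum_congr rfl fun x0 h0 =>
    (ins0_num D sp ℓ s σ0 (φ x0) (hφ x0 h0) (hφc x0 h0) (hφ1 x0 h0) (Φ x0) (hΦ x0 h0)).1

end Pool.Agent.Helper221.Rare
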