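import Pool.Agent.Helper985.CT.M_center_upper
import Pool.Agent.Helper985.CT.M_exists_grid
import Pool.Agent.Helper985.CT.M_near_grid
import Pool.Agent.Helper985.CT.M_peierls_bdd
import Pool.Agent.Helper985.CT.M_peierls_pos
import Pool.Agent.Helper221.Rare.Bessel

set_option autoImplicit false

open MeasureTheory
open scoped Topology

namespace Pool.Agent.Helper221.Rare

open Pool.Agent.Helper985.CP

/-- the operations at one centre: `V` empties the ball, `W` is the rest, and a pair in the state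
`φ` is inserted into `V Ψ` -/
theorem center_ops {S : Type} [Fintype S] [DecidableEq S] (D : Species S) (hD : D.Valid)
    (r T : ℝ) (hr : 0 < r) (hT : 0 < T) : ∃ C : ℝ, 1 ≤ C ∧ ∀ (a b : S),
      D.charge b = -D.charge a → ∀ (σa σb : Fin D.g), σa ∈ D.spin a → σb ∈ D.spin b →
      ∀ {I : Type} [Fintype I] [DecidableEq I] (sp : I → S)
        (ℓ : ℝ) (x0 : E3), Metric.closedBall x0 r ⊆ cube ℓ →
        ∃ (V W : Wave D I → Wave D I) (φ : E3 → ℝ), ContDiff ℝ SM φ ∧ HasCompactSupport φ ∧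
          tsupport φ ⊆ Metric.closedBall x0 r ∧ ∫ z, φ z ^ 2 = 1 ∧
          (∀ {k : ℕ} (ψ : Fin k → Wave D I) (γ : Fin k → ℂ),
            V (fun τ x => ∑ j, γ j * ψ j τ x) = fun τ x => ∑ j, γ j * V (ψ j) τ x) ∧
          (∀ {k : ℕ} (ψ : Fin k → Wave D I) (γ : Fin k → ℂ),
            W (fun τ x => ∑ j, γ j * ψ j τ x) = fun τ x => ∑ j, γ j * W (ψ j) τ x) ∧
          (∀ Ψ, IsState D sp ℓ Ψ → IsState D sp ℓ (V Ψ) ∧ IsState D sp ℓ (W Ψ) ∧
            nrm2 D (V Ψ) + nrm2 D (W Ψ) = nrm2 D Ψ ∧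
            IsState D (fun o : Option I => o.elim a sp) ℓ (insN D sp a σa φ (V Ψ)) ∧
            nrm2 D (insN D sp a σa φ (V Ψ)) = nrm2 D (V Ψ) ∧
            IsState D (fun o : Option (Option I) => o.elim b (fun o' => o'.elim a sp)) ℓ
              (insN D (fun o' : Option I => o'.elim a sp) b σb φ (insN D sp a σa φ (V Ψ)))) ∧
          (∀ Ψ, IsState D sp ℓ Ψ → nrm2 D Ψ = 1 → ∀ ν : ℝ, 0 ≤ ν →
            Real.exp ((-(energy D sp Ψ) - C - (ν + C) * near D r x0 Ψ + ν) / T) ≤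
              nrm2 D (W Ψ) * Real.exp (-(energy D sp (W Ψ)) / (nrm2 D (W Ψ) * T)) +
              Real.exp (ν / T) * (nrm2 D (insN D (fun o' : Option I => o'.elim a sp) b σb φ
                (insN D sp a σa φ (V Ψ))) * Real.exp (-(energy D
                (fun o : Option (Option I) => o.elim b (fun o' => o'.elim a sp))
                  (insN D (fun o' : Option I => o'.elim a sp) b σb φ
                    (insN D sp a σa φ (V Ψ)))) /
                (nrm2 D (insN D (fun o' : Option I => o'.elim a sp) b σb φ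
                  (insN D sp a σa φ (V Ψ))) * T)))) := by
  obtain ⟨Cc, hCc, hcut⟩ := exists_cut r hr
  obtain ⟨Tb, hTb, hbump⟩ := exists_bump r hr
  set M : ℝ := ∑ s, 1 / (2 * D.mass s) with hM
  have hM0 : 0 ≤ M := Finset.sum_nonneg fun s _ => by
    have := hD.mass_pos s
    positivity
  have hC1 : 0 ≤ Cc * M := by positivity
  have hC2 : 0 ≤ 2 * M * Tb := by positivity
  refine ⟨1 + Cc * M + 2 * M * Tb, by linarith, ?_⟩
  set C : ℝ := 1 + Cc * M + 2 * M * Tb with hC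
  intro a b hab σa σb hσa hσb I _ _ sp ℓ x0 hx0
  obtain ⟨θ, hθ, hθs, hθ1, hθ2, hθ3⟩ := hcut (I := I) x0
  obtain ⟨φ, hφ, hφc, hφs, hφ1, hφT⟩ := hbump x0
  -- the operations
  let V : Wave D I → Wave D I := fun Ψ τ x => ((Real.cos (θ x) : ℝ) : ℂ) * Ψ τ x
  let W : Wave D I → Wave D I := fun Ψ τ x => ((Real.sin (θ x) : ℝ) : ℂ) * Ψ τ x
  let P : Wave D I → Wave D (Option (Option I)) := fun Ψ =>
    insN D (fun o' : Option I => o'.elim a sp) b σb φ (insN D sp a σa φ (V Ψ))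
  have hims := fun (Ψ : Wave D I) (hΨ : IsState D sp ℓ Ψ) => ims D sp ℓ Ψ hΨ θ hθ hθs
  have hVv : ∀ (Ψ : Wave D I) τ x i, x i ∈ Metric.closedBall x0 r → V Ψ τ x = 0 := by
    intro Ψ τ x i hx
    have h1 := hθ1 x i hx
    show ((Real.cos (θ x) : ℝ) : ℂ) * Ψ τ x = 0
    rw [h1, Real.cos_pi_div_two]
    simp
  have hP : ∀ Ψ : Wave D I, IsState D sp ℓ Ψ →
      IsState D (fun o : Option (Option I) => o.elim b (fun o' => o'.elim a sp)) ℓ (P Ψ) ∧
      nrm2 D (P Ψ) = nrm2 D (V Ψ) ∧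
      energy D (fun o : Option (Option I) => o.elim b (fun o' => o'.elim a sp)) (P Ψ) ≤
        energy D sp (V Ψ) + 2 * M * Tb * nrm2 D (V Ψ) := fun Ψ hΨ =>
    cu_pair D sp hD r a b hab ℓ x0 hx0 φ hφ hφc hφs hφ1 Tb hφT σa σb hσa hσb (V Ψ)
      (hims Ψ hΨ).1 (hVv Ψ)
  refine ⟨V, W, φ, hφ, hφc, hφs, hφ1, ?_, ?_, ?_, ?_⟩
  · intro k ψ γ
    funext τ x
    show ((Real.cos (θ x) : ℝ) : ℂ) * ∑ j, γ j * ψ j τ x =
      ∑ j, γ j * (((Real.cos (θ x) : ℝ) : ℂ) * ψ j τ x)
    rw [Finset.mul_sum]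
    exact Finset.sum_congr rfl fun j _ => by ring
  · intro k ψ γ
    funext τ x
    show ((Real.sin (θ x) : ℝ) : ℂ) * ∑ j, γ j * ψ j τ x =
      ∑ j, γ j * (((Real.sin (θ x) : ℝ) : ℂ) * ψ j τ x)
    rw [Finset.mul_sum]
    exact Finset.sum_congr rfl fun j _ => by ring
  · intro Ψ hΨ
    obtain ⟨i1, i2, i3, i4⟩ := hims _ hΨ
    obtain ⟨h1, h2, h3, h4, h5⟩ := insN_props D hD sp ℓ a σa hσa φ hφ hφc (hφs.trans hx0) hφ1
      (V Ψ) i1 (fun τ x i _ hx => hVv Ψ τ x i (hφs hx))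
    exact ⟨i1, i2, i3, h1, h2, (hP Ψ hΨ).1⟩
  · intro Ψ hs hone ν hν
    obtain ⟨i1, i2, i3, i4⟩ := hims _ hs
    obtain ⟨p1, p2, p3⟩ := hP _ hs
    have hVn := cu_nrm2_nonneg D (V Ψ)
    have hWn := cu_nrm2_nonneg D (W Ψ)
    have i3' : nrm2 D (V Ψ) + nrm2 D (W Ψ) = 1 := by rw [← hone]; exact i3
    have hint : ∀ τ, Integrable (fun x => ‖Ψ τ x‖ ^ 2) := fun τ =>
      (int_state D sp ℓ Ψ hs τ).1
    have hq : nrm2 D (W Ψ) ≤ near D r x0 Ψ := by
      unfold nrm2 near
      refine Finset.sum_le_sum fun τ _ => ?_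
      refine integral_mono_of_nonneg (Filter.Eventually.of_forall fun x => by positivity)
        (cu_int_ind r x0 _ (hint τ)) (Filter.Eventually.of_forall fun x => ?_)
      show ‖((Real.sin (θ x) : ℝ) : ℂ) * Ψ τ x‖ ^ 2 ≤ _
      rw [norm_mul, mul_pow, Complex.norm_real, Real.norm_eq_abs, sq_abs]
      exact mul_le_mul_of_nonneg_right (hθ2 x) (by positivity)
    have hK : ∑ τ, ∫ x, (∑ i, (1 / (2 * D.mass (sp i))) * ∑ k : Fin 3,
        (fderiv ℝ θ x (Pi.single i (EuclideanSpace.single k (1 : ℝ)))) ^ 2) * ‖Ψ τ x‖ ^ 2 ≤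
        Cc * M * near D r x0 Ψ := by
      unfold near
      rw [Finset.mul_sum]
      refine Finset.sum_le_sum fun τ _ => ?_
      rw [← integral_const_mul]
      refine integral_mono_of_nonneg (Filter.Eventually.of_forall fun x => ?_)
        ((cu_int_ind r x0 _ (hint τ)).const_mul _) (Filter.Eventually.of_forall fun x => ?_)
      · refine mul_nonneg (Finset.sum_nonneg fun i _ => mul_nonneg ?_ ?_) (by positivity)
        · exact (cu_mass D hD (sp i)).1.le
        · exact Finset.sum_nonneg fun k _ => sq_nonneg _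
      · show (∑ i, (1 / (2 * D.mass (sp i))) * ∑ k : Fin 3,
          (fderiv ℝ θ x (Pi.single i (EuclideanSpace.single k (1 : ℝ)))) ^ 2) * ‖Ψ τ x‖ ^ 2 ≤
          Cc * M * ((∑ i, Set.indicator (Metric.ball x0 (2 * r)) (fun _ => (1 : ℝ)) (x i)) *
            ‖Ψ τ x‖ ^ 2)
        rw [← mul_assoc]
        refine mul_le_mul_of_nonneg_right ?_ (by positivity)
        rw [Finset.mul_sum]
        refine Finset.sum_le_sum fun i _ => ?_
        have hm := cu_mass D hD (sp i)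
        have h3 := hθ3 x i
        have h0 : 0 ≤ ∑ k : Fin 3,
          (fderiv ℝ θ x (Pi.single i (EuclideanSpace.single k (1 : ℝ)))) ^ 2 :=
          Finset.sum_nonneg fun k _ => sq_nonneg _
        calc (1 / (2 * D.mass (sp i))) * ∑ k : Fin 3,
            (fderiv ℝ θ x (Pi.single i (EuclideanSpace.single k (1 : ℝ)))) ^ 2
            ≤ M * (Cc * Set.indicator (Metric.ball x0 (2 * r)) (fun _ => (1 : ℝ)) (x i)) :=
              mul_le_mul hm.2 h3 h0 hM0
          _ = _ := by ring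
    have hnear0 : 0 ≤ near D r x0 Ψ := hWn.trans hq
    have i4' : energy D sp (V Ψ) + energy D sp (W Ψ) ≤
        energy D sp Ψ + Cc * M * near D r x0 Ψ := by
      have h7 : energy D sp (V Ψ) + energy D sp (W Ψ) = energy D sp Ψ +
        ∑ τ, ∫ x, (∑ i, (1 / (2 * D.mass (sp i))) * ∑ k : Fin 3,
        (fderiv ℝ θ x (Pi.single i (EuclideanSpace.single k (1 : ℝ)))) ^ 2) * ‖Ψ τ x‖ ^ 2 := i4
      rw [h7]
      linarith
    have hconv := cu_conv (nrm2 D (P Ψ)) (nrm2 D (W Ψ))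
      (energy D sp (W Ψ))
      (energy D (fun o : Option (Option I) => o.elim b (fun o' => o'.elim a sp)) (P Ψ)) ν T hT
      (by rw [p2]; exact hVn) hWn (by rw [p2]; exact i3')
      (fun h => cu_eq_zero D sp ℓ _ i2 h) (fun h => cu_eq_zero D _ ℓ _ p1 h)
    refine le_trans (Real.exp_le_exp.2 ?_) hconv
    refine div_le_div_of_nonneg_right ?_ hT.le
    rw [p2]
    have hp1 : nrm2 D (V Ψ) ≤ 1 := by linarith
    have hn1 : 2 * M * Tb * nrm2 D (V Ψ) ≤ 2 * M * Tb * 1 :=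
      mul_le_mul_of_nonneg_left hp1 hC2
    have hn2 : ν * (1 - near D r x0 Ψ) ≤ ν * nrm2 D (V Ψ) :=
      mul_le_mul_of_nonneg_left (by linarith) hν
    have hn3 : 0 ≤ (1 + 2 * M * Tb) * near D r x0 Ψ := by positivity
    have hCe : C * near D r x0 Ψ = Cc * M * near D r x0 Ψ +
      (1 + 2 * M * Tb) * near D r x0 Ψ := by rw [hC]; ring
    nlinarith [hn1, hn2, hn3, hCe, i4', p3]

/-- Number of places of the inserted pair: the partition function gains a factor of the order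
of `N / (n_b + 1)`. -/
theorem rare_upper {S : Type} [Fintype S] [DecidableEq S] (D : Species S) (hD : D.Valid)
    (hst : HStable D) (r T : ℝ) (hr : 0 < r) (hT : 0 < T) :
    ∃ K : ℝ, 0 < K ∧ ∀ (a b : S), D.charge b = -D.charge a →
      ∀ {I : Type} [Fintype I] [DecidableEq I] (sp : I → S) (ℓ : ℝ),
      8 * r ≤ ℓ → (Fintype.card I : ℝ) * (1024 * r ^ 3) ≤ ℓ ^ 3 →
      (Fintype.card I : ℝ) * sSup (peierls D sp ℓ T) ≤ K * ((cnt sp b : ℝ) + 1) *
        sSup (peierls D (fun o : Option (Option I) => o.elim b (fun o' => o'.elim a sp)) ℓ T) := by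
  classical
  obtain ⟨C, hC, hcen⟩ := center_ops D hD r T hr hT
  have hlog : 0 ≤ Real.log (2 * C) := Real.log_nonneg (by linarith)
  have hν : 0 ≤ 2 * T * Real.log (2 * C) + 3 * C := by positivity
  generalize hνd : 2 * T * Real.log (2 * C) + 3 * C = ν at hν
  refine ⟨Real.exp (ν / T), Real.exp_pos _, ?_⟩
  intro a b hab I _ _ sp ℓ h8 hcard
  have hℓ : 0 < ℓ := by linarith
  have hne : b ≠ a := by
    intro h
    subst h
    have h1 := hD.charge_ne b
    apply h1
    linarith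
  obtain ⟨σa, hσa⟩ := hD.spin_nonempty a
  obtain ⟨σb, hσb⟩ := hD.spin_nonempty b
  let sp1 : Option I → S := fun o' => o'.elim a sp
  let sp2 : Option (Option I) → S := fun o => o.elim b (fun o' => o'.elim a sp)
  have hb1 := peierls_bdd D hD hst sp ℓ T hℓ hT
  have hb2 := peierls_bdd D hD hst sp2 ℓ T hℓ hT
  have hp2 := peierls_pos D hD hst sp2 ℓ T hℓ hT
  obtain ⟨G, hGne, hGc, hGsub, hGcov⟩ := exists_grid ℓ r hr h8 (Fintype.card I) hcard
  have hGpos : (0 : ℝ) < G.card := by exact_mod_cast hGne.card_pos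
  have hops := fun x0 (hx0 : x0 ∈ G) => hcen a b hab σa σb hσa hσb sp ℓ x0 (hGsub x0 hx0)
  choose! V W φ hφ hφc hφs hφ1 hVlin hWlin hst' hterm using hops
  generalize hZs : sSup (peierls D sp ℓ T) = Z at *
  generalize hZs' : sSup (peierls D sp2 ℓ T) = Z' at *
  have hZ : ∀ z ∈ peierls D sp ℓ T, z ≤ Z := fun z hz => hZs ▸ le_csSup hb1 hz
  have hZ' : ∀ z ∈ peierls D sp2 ℓ T, z ≤ Z' := fun z hz => hZs' ▸ le_csSup hb2 hz
  -- disjoint balls
  have hdis : ∀ x0 ∈ G, ∀ x1 ∈ G, x0 ≠ x1 → ∀ z, φ x0 z = 0 ∨ φ x1 z = 0 := by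
    intro x0 h0 x1 h1 hn z
    by_contra hcon
    push_neg at hcon
    have e0 : z ∈ Metric.ball x0 (2 * r) :=
      Metric.closedBall_subset_ball (by linarith) (hφs x0 h0 (subset_tsupport _ hcon.1))
    have e1 : z ∈ Metric.ball x1 (2 * r) :=
      Metric.closedBall_subset_ball (by linarith) (hφs x1 h1 (subset_tsupport _ hcon.2))
    have h2 := hGcov z
    have h3 : ∑ y ∈ ({x0, x1} : Finset E3), Set.indicator (Metric.ball y (2 * r))
        (fun _ => (1 : ℝ)) z ≤ ∑ y ∈ G, Set.indicator (Metric.ball y (2 * r))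
        (fun _ => (1 : ℝ)) z := by
      refine Finset.sum_le_sum_of_subset_of_nonneg ?_ fun y _ _ =>
        Set.indicator_nonneg (fun _ _ => zero_le_one) _
      intro y hy
      rcases Finset.mem_insert.1 hy with h | h
      · exact h ▸ h0
      · exact (Finset.mem_singleton.1 h) ▸ h1
    rw [Finset.sum_pair hn, Set.indicator_of_mem e0, Set.indicator_of_mem e1] at h3
    linarith
  have hcnt1 : cnt sp1 b = cnt sp b := by
    unfold cnt
    rw [Finset.card_filter, Finset.card_filter, Fintype.sum_option]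
    have e1 : sp1 none = a := rfl
    have e2 : ∀ i, sp1 (some i) = sp i := fun _ => rfl
    simp only [e1, e2, if_neg (Ne.symm hne), zero_add]
  let P : E3 → Wave D I → Wave D (Option (Option I)) := fun x0 Ψ =>
    insN D sp1 b σb (φ x0) (insN D sp a σa (φ x0) (V x0 Ψ))
  have key : ∀ z ∈ peierls D sp ℓ T, (G.card : ℝ) * (2 * z) ≤
      (G.card : ℝ) * Z + Real.exp (ν / T) * (((cnt sp b : ℝ) + 1) * Z') := by
    rintro z ⟨k, ψ, hψ, rfl⟩
    have hn : ∀ j, nrm2 D (ψ j) = 1 := fun j => cu_nrm2_one D sp ℓ ψ hψ j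
    have hj : ∀ j, (G.card : ℝ) * (2 * C * Real.exp (-(energy D sp (ψ j)) / T)) ≤
        ∑ x0 ∈ G, Real.exp ((-(energy D sp (ψ j)) - C - (ν + C) * near D r x0 (ψ j) + ν) / T) := by
      intro j
      obtain ⟨hs, _⟩ := near_grid D sp ℓ r G hGcov (ψ j) (hψ.1 j)
      rw [hn j, mul_one] at hs
      have hb : 0 ≤ (ν + C) / T := by positivity
      have hexp : Real.exp ((-(energy D sp (ψ j)) - C + ν) / T - (ν + C) / T / 2)
          = 2 * C * Real.exp (-(energy D sp (ψ j)) / T) := by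
        rw [show (-(energy D sp (ψ j)) - C + ν) / T - (ν + C) / T / 2
            = Real.log (2 * C) + -(energy D sp (ψ j)) / T by
          rw [← hνd]; field_simp; ring]
        rw [Real.exp_add, Real.exp_log (by linarith)]
      have hterm : ∀ x0 ∈ G, 2 * C * Real.exp (-(energy D sp (ψ j)) / T) *
          ((ν + C) / T / 2 - (ν + C) / T * near D r x0 (ψ j) + 1) ≤
          Real.exp ((-(energy D sp (ψ j)) - C - (ν + C) * near D r x0 (ψ j) + ν) / T) := by
        intro x0 _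
        rw [← hexp]
        have h3 : (-(energy D sp (ψ j)) - C - (ν + C) * near D r x0 (ψ j) + ν) / T
            = ((-(energy D sp (ψ j)) - C + ν) / T - (ν + C) / T / 2)
              + ((ν + C) / T / 2 - (ν + C) / T * near D r x0 (ψ j)) := by
          field_simp
          ring
        rw [h3, Real.exp_add]
        exact mul_le_mul_of_nonneg_left (Real.add_one_le_exp _) (Real.exp_pos _).le
      refine le_trans ?_ (Finset.sum_le_sum hterm)
      rw [← Finset.mul_sum, Finset.sum_add_distrib, Finset.sum_sub_distrib, ← Finset.mul_sum,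
        Finset.sum_const, Finset.sum_const, nsmul_eq_mul, nsmul_eq_mul, mul_one, mul_comm]
      have hpos : 0 ≤ 2 * C * Real.exp (-(energy D sp (ψ j)) / T) := by positivity
      refine mul_le_mul_of_nonneg_left ?_ hpos
      have h4 : (ν + C) / T * ∑ x0 ∈ G, near D r x0 (ψ j) ≤ (ν + C) / T * ((G.card : ℝ) / 2) := by
        refine mul_le_mul_of_nonneg_left ?_ hb
        linarith
      nlinarith [h4]
    -- the part with the rest
    have hTW : ∀ x0 ∈ G, ∑ j, nrm2 D (W x0 (ψ j)) *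
        Real.exp (-(energy D sp (W x0 (ψ j))) / (nrm2 D (W x0 (ψ j)) * T)) ≤ 1 * Z := by
      intro x0 hx0
      refine trace_bound D sp ℓ T hT Z hZ (fun j => W x0 (ψ j))
        (fun j => (hst' x0 hx0 _ (hψ.1 j)).2.1) 1 zero_le_one ?_
      intro γ
      have h1 := (hst' x0 hx0 _ (state_comb D sp ℓ ψ hψ.1 γ)).2.2.1
      have h2 := cu_comb D sp ℓ ψ hψ γ
      have h3 := cu_nrm2_nonneg D (V x0 (fun τ x => ∑ j, γ j * ψ j τ x))
      rw [← hWlin x0 hx0]
      linarith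
    -- the part with the pair
    have hTP : ∑ q : Fin k × {x0 // x0 ∈ G}, nrm2 D (P q.2 (ψ q.1)) *
        Real.exp (-(energy D sp2 (P q.2 (ψ q.1))) / (nrm2 D (P q.2 (ψ q.1)) * T)) ≤
        ((cnt sp b : ℝ) + 1) * Z' := by
      refine trace_bound D sp2 ℓ T hT Z' hZ' (fun q : Fin k × {x0 // x0 ∈ G} => P q.2 (ψ q.1))
        (fun q => (hst' q.2 q.2.2 _ (hψ.1 q.1)).2.2.2.2.2) ((cnt sp b : ℝ) + 1)
        (by positivity) ?_
      intro γ
      let Ξ : E3 → Wave D I := fun x0 => if h : x0 ∈ G then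
        (fun τ x => ∑ j, γ (j, ⟨x0, h⟩) * ψ j τ x) else 0
      have hΞ : ∀ x0 (h : x0 ∈ G), Ξ x0 = fun τ x => ∑ j, γ (j, ⟨x0, h⟩) * ψ j τ x := by
        intro x0 h
        simp only [Ξ, dif_pos h]
      have hΞs : ∀ x0 ∈ G, IsState D sp ℓ (Ξ x0) := by
        intro x0 h
        rw [hΞ x0 h]
        exact state_comb D sp ℓ ψ hψ.1 _
      have e1 : (fun τ x => ∑ q : Fin k × {x0 // x0 ∈ G}, γ q * P q.2 (ψ q.1) τ x) =
          (fun τ x => ∑ x0 ∈ G, insN D sp1 b σb (φ x0)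
            (insN D sp a σa (φ x0) (V x0 (Ξ x0))) τ x : Wave D (Option (Option I))) := by
        funext τ x
        rw [Fintype.sum_prod_type_right, ← Finset.sum_coe_sort G]
        refine Finset.sum_congr rfl fun x0 _ => ?_
        rw [hΞ x0 x0.2, hVlin x0 x0.2, cu_insN_lin D sp a σa (φ x0) (fun j => V x0 (ψ j)),
          cu_insN_lin D sp1 b σb (φ x0) (fun j => insN D sp a σa (φ x0) (V x0 (ψ j)))]
      rw [e1]
      have e2 := ins_bessel D sp1 ℓ b σb G φ hφ hφc hφ1 hdis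
        (fun x0 => insN D sp a σa (φ x0) (V x0 (Ξ x0)))
        (fun x0 h0 => (hst' x0 h0 _ (hΞs x0 h0)).2.2.2.1)
      rw [hcnt1] at e2
      refine e2.trans (mul_le_mul_of_nonneg_left ?_ (by positivity))
      have e3 : ∀ x0 ∈ G, nrm2 D (insN D sp a σa (φ x0) (V x0 (Ξ x0))) ≤ nrm2 D (Ξ x0) := by
        intro x0 h0
        obtain ⟨_, _, h1, _, h2, _⟩ := hst' x0 h0 _ (hΞs x0 h0)
        rw [h2, ← h1]
        have := cu_nrm2_nonneg D (W x0 (Ξ x0))
        linarith
      refine (Finset.sum_le_sum e3).trans (le_of_eq ?_)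
      rw [Fintype.sum_prod_type_right, ← Finset.sum_coe_sort G]
      refine Finset.sum_congr rfl fun x0 _ => ?_
      rw [hΞ x0 x0.2]
      exact cu_comb D sp ℓ ψ hψ _
    have hTP' : ∑ x0 ∈ G, ∑ j, nrm2 D (P x0 (ψ j)) *
        Real.exp (-(energy D sp2 (P x0 (ψ j))) / (nrm2 D (P x0 (ψ j)) * T)) ≤
        ((cnt sp b : ℝ) + 1) * Z' := by
      rw [Fintype.sum_prod_type_right] at hTP
      rw [← Finset.sum_coe_sort G]
      exact hTP
    have hsum : (G.card : ℝ) * (2 * C * ∑ j, Real.exp (-(energy D sp (ψ j)) / T)) ≤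
        (G.card : ℝ) * Z + Real.exp (ν / T) * (((cnt sp b : ℝ) + 1) * Z') := by
      calc (G.card : ℝ) * (2 * C * ∑ j, Real.exp (-(energy D sp (ψ j)) / T))
          = ∑ j, (G.card : ℝ) * (2 * C * Real.exp (-(energy D sp (ψ j)) / T)) := by
            rw [Finset.mul_sum, Finset.mul_sum]
        _ ≤ ∑ j, ∑ x0 ∈ G, Real.exp ((-(energy D sp (ψ j)) - C
              - (ν + C) * near D r x0 (ψ j) + ν) / T) := Finset.sum_le_sum fun j _ => hj j
        _ = ∑ x0 ∈ G, ∑ j, Real.exp ((-(energy D sp (ψ j)) - C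
              - (ν + C) * near D r x0 (ψ j) + ν) / T) := Finset.sum_comm
        _ ≤ ∑ x0 ∈ G, ∑ j, (nrm2 D (W x0 (ψ j)) *
              Real.exp (-(energy D sp (W x0 (ψ j))) / (nrm2 D (W x0 (ψ j)) * T)) +
              Real.exp (ν / T) * (nrm2 D (P x0 (ψ j)) *
        Real.exp (-(energy D sp2 (P x0 (ψ j))) / (nrm2 D (P x0 (ψ j)) * T)))) := by
            refine Finset.sum_le_sum fun x0 hx0 => Finset.sum_le_sum fun j _ => ?_
            exact hterm x0 hx0 (ψ j) (hψ.1 j) (hn j) ν hν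
        _ = ∑ x0 ∈ G, ∑ j, nrm2 D (W x0 (ψ j)) *
              Real.exp (-(energy D sp (W x0 (ψ j))) / (nrm2 D (W x0 (ψ j)) * T)) +
              Real.exp (ν / T) * ∑ x0 ∈ G, ∑ j, nrm2 D (P x0 (ψ j)) *
        Real.exp (-(energy D sp2 (P x0 (ψ j))) / (nrm2 D (P x0 (ψ j)) * T)) := by
            rw [Finset.mul_sum, ← Finset.sum_add_distrib]
            refine Finset.sum_congr rfl fun x0 _ => ?_
            rw [Finset.sum_add_distrib, ← Finset.mul_sum]
        _ ≤ (G.card : ℝ) * Z + Real.exp (ν / T) * (((cnt sp b : ℝ) + 1) * Z') := by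
            refine add_le_add ?_ (mul_le_mul_of_nonneg_left hTP' (Real.exp_pos _).le)
            refine (Finset.sum_le_sum hTW).trans (le_of_eq ?_)
            rw [Finset.sum_const, nsmul_eq_mul, one_mul]
    refine le_trans ?_ hsum
    refine mul_le_mul_of_nonneg_left ?_ hGpos.le
    refine mul_le_mul_of_nonneg_right (by linarith) ?_
    exact Finset.sum_nonneg fun j _ => (Real.exp_pos _).le
  have hne' : (peierls D sp ℓ T).Nonempty :=
    ⟨0, 0, fun i => i.elim0, ⟨fun i => i.elim0, fun i => i.elim0⟩, by simp⟩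
  have key2 : ∀ z ∈ peierls D sp ℓ T, z ≤
      ((G.card : ℝ) * Z + Real.exp (ν / T) * (((cnt sp b : ℝ) + 1) * Z')) / (2 * G.card) := by
    intro z hz
    rw [le_div_iff₀ (by positivity)]
    have := key z hz
    linarith
  have hfin := csSup_le hne' key2
  rw [hZs, le_div_iff₀ (by positivity)] at hfin
  have hZ0 : 0 ≤ Z := hZ 0 ⟨0, Fin.elim0, ⟨fun i => i.elim0, fun i => i.elim0⟩, by simp⟩
  have h1 : (G.card : ℝ) * Z ≤ Real.exp (ν / T) * (((cnt sp b : ℝ) + 1) * Z') := by linarith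
  have h2 : (Fintype.card I : ℝ) * Z ≤ (G.card : ℝ) * Z := by
    refine mul_le_mul_of_nonneg_right ?_ hZ0
    have : (0 : ℝ) ≤ Fintype.card I := Nat.cast_nonneg _
    linarith
  calc (Fintype.card I : ℝ) * Z ≤ _ := h2.trans h1
    _ = _ := by ring

end Pool.Agent.Helper221.Rare
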